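import Pool.Agent.H121.SH.Iface
import Pool.Agent.H962.UE.ResA
import Pool.Agent.H738.GA.Meas
import Pool.Agent.H155.GA.RuA
import Pool.Agent.H100.GA.Opb

/-! Project SH of helper121, S_measR (helper339). -/

set_option autoImplicit false

open scoped ENNReal
open MeasureTheory Set

namespace Pool.Agent.H339.SH

open Pool.Agent.H121.SH
open Pool.Agent.H987.Y (Ker Op)
open Pool.Agent.H121.UE (rk)

theorem grf_ker {ι : Type} {K : ℕ} {t : ι → ι → ℝ} {N : ι → Finset ι} (h : Grf K t N) :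
    Ker (K : ℝ) t := by
  have h0 : ∀ x y, y ∉ N x → |t x y| = 0 := by
    intro x y hy
    rw [abs_eq_zero]
    by_contra hne
    exact hy (h.nb x y hne)
  refine ⟨Nat.cast_nonneg _, h.sy, fun x => ?_, fun x => ?_⟩
  · exact summable_of_ne_finset_zero (s := N x) (fun y hy => h0 x y hy)
  · rw [tsum_eq_sum (s := N x) (fun y hy => h0 x y hy)]
    calc ∑ y ∈ N x, |t x y| ≤ ∑ _y ∈ N x, (1 : ℝ) := Finset.sum_le_sum fun y _ => h.le x y
      _ = ((N x).card : ℝ) := by simp
      _ ≤ (K : ℝ) := by exact_mod_cast h.cd x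

theorem measR_of (h1 : Pool.Agent.H121.GA.S_mU) : S_measR := by
  intro ι _ K t N h lam Ω z x y hz
  have hk : Ker (K : ℝ) (rk Ω t) := Pool.Agent.H962.UE.Ker_rk (grf_ker h) Ω
  have hop := Pool.Agent.H168.Y987.op ι (rk Ω t) K hk
  unfold GR
  by_cases hxy : x ∈ Ω ∧ y ∈ Ω
  · simp only [if_pos hxy]
    exact (h1.1 ι (Op (rk Ω t)) hop.2.2.1 lam x y).2 z hz
  · simp only [if_neg hxy]
    exact measurable_const

theorem measR : S_measR :=
  measR_of (Pool.Agent.H738.GA.mU Pool.Agent.H155.GA.ruA Pool.Agent.H100.GA.opb)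

end Pool.Agent.H339.SH
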