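import Pool.Agent.H354.ME.TailCore

/-! Project SH of helper121, S_two: the computation (helper339). -/

set_option autoImplicit false

open scoped ENNReal
open MeasureTheory Set

namespace Pool.Agent.H339.SH

/-- the pointwise inequality -/
theorem pt (X Y b : ℂ) (lam s : ℝ) (hX : X ≠ 0) (hY : Y ≠ 0) (hlam : 0 < lam)
    (hYl : ‖Y‖ ≤ 1 / lam) (hs : 0 < s) :
    (‖b‖ / ‖X * Y - b ^ 2‖) ^ s ≤ 2 ^ (s / 2) * ‖X‖⁻¹ ^ (s / 2) *
      (‖Y‖⁻¹ ^ (s / 2) + lam⁻¹ ^ (s / 2) * ‖Y - b ^ 2 / X‖⁻¹ ^ s) := by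
  have hX0 : 0 < ‖X‖ := norm_pos_iff.mpr hX
  have hY0 : 0 < ‖Y‖ := norm_pos_iff.mpr hY
  set u : ℝ := ‖b‖ / ‖X * Y - b ^ 2‖ with hu
  have hu0 : 0 ≤ u := by positivity
  have hus : u ^ s = (u ^ 2) ^ (s / 2) := by
    rw [← Real.rpow_natCast u 2, ← Real.rpow_mul hu0]
    congr 1
    push_cast
    ring
  by_cases hc : ‖X‖ * ‖Y‖ ≤ ‖b‖ ^ 2 / 2
  · have hb0 : 0 < ‖b‖ := by
      have h1 : 0 < ‖X‖ * ‖Y‖ := by positivity
      by_contra hcon
      have h2 : ‖b‖ = 0 := le_antisymm (not_lt.mp hcon) (norm_nonneg _)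
      rw [h2] at hc
      norm_num at hc
      linarith
    have h1 : ‖b‖ ^ 2 / 2 ≤ ‖X * Y - b ^ 2‖ := by
      have h2 : ‖b ^ 2‖ ≤ ‖X * Y - b ^ 2‖ + ‖X * Y‖ := by
        have := norm_sub_le (X * Y) (X * Y - b ^ 2)
        have e : X * Y - (X * Y - b ^ 2) = b ^ 2 := by ring
        rw [e] at this
        linarith
      rw [norm_pow, norm_mul] at h2
      linarith
    have h2 : u ^ 2 ≤ 2 * (‖X‖⁻¹ * ‖Y‖⁻¹) := by
      have h3 : u ≤ 2 / ‖b‖ := by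
        rw [hu]
        calc ‖b‖ / ‖X * Y - b ^ 2‖ ≤ ‖b‖ / (‖b‖ ^ 2 / 2) :=
              div_le_div_of_nonneg_left hb0.le (by positivity) h1
          _ = 2 / ‖b‖ := by field_simp
      have h4 : u ^ 2 ≤ (2 / ‖b‖) ^ 2 := pow_le_pow_left₀ hu0 h3 2
      refine h4.trans ?_
      rw [← mul_inv, div_pow, ← div_eq_mul_inv, div_le_div_iff₀ (by positivity) (by positivity)]
      nlinarith
    have h5 : u ^ s ≤ 2 ^ (s / 2) * ‖X‖⁻¹ ^ (s / 2) * ‖Y‖⁻¹ ^ (s / 2) := by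
      rw [hus]
      calc (u ^ 2) ^ (s / 2) ≤ (2 * (‖X‖⁻¹ * ‖Y‖⁻¹)) ^ (s / 2) :=
            Real.rpow_le_rpow (by positivity) h2 (by positivity)
        _ = 2 ^ (s / 2) * ‖X‖⁻¹ ^ (s / 2) * ‖Y‖⁻¹ ^ (s / 2) := by
            rw [Real.mul_rpow (by norm_num) (by positivity),
              Real.mul_rpow (by positivity) (by positivity)]
            ring
    refine h5.trans ?_
    refine mul_le_mul_of_nonneg_left ?_ (by positivity)
    have : 0 ≤ lam⁻¹ ^ (s / 2) * ‖Y - b ^ 2 / X‖⁻¹ ^ s := by positivity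
    linarith
  · push Not at hc
    set Z : ℝ := ‖Y - b ^ 2 / X‖ with hZ
    have hfac : ‖X * Y - b ^ 2‖ = ‖X‖ * Z := by
      rw [hZ, ← norm_mul]
      congr 1
      field_simp
    have h2 : u ^ 2 ≤ 2 * (‖X‖⁻¹ * (lam⁻¹ * (Z⁻¹) ^ 2)) := by
      rw [hu, hfac, div_eq_mul_inv, mul_inv, mul_pow, mul_pow]
      have h3 : ‖b‖ ^ 2 ≤ 2 * ‖X‖ * lam⁻¹ := by
        have h4 : ‖X‖ * ‖Y‖ ≤ ‖X‖ * lam⁻¹ := by
          rw [← one_div]
          exact mul_le_mul_of_nonneg_left hYl hX0.le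
        linarith
      calc ‖b‖ ^ 2 * (‖X‖⁻¹ ^ 2 * Z⁻¹ ^ 2) ≤ (2 * ‖X‖ * lam⁻¹) * (‖X‖⁻¹ ^ 2 * Z⁻¹ ^ 2) :=
            mul_le_mul_of_nonneg_right h3 (by positivity)
        _ = 2 * (‖X‖⁻¹ * (lam⁻¹ * (Z⁻¹) ^ 2)) := by
            field_simp
    have h5 : u ^ s ≤ 2 ^ (s / 2) * ‖X‖⁻¹ ^ (s / 2) * (lam⁻¹ ^ (s / 2) * Z⁻¹ ^ s) := by
      rw [hus]
      have hZs : (Z⁻¹ ^ 2) ^ (s / 2) = Z⁻¹ ^ s := by
        rw [← Real.rpow_natCast (Z⁻¹) 2, ← Real.rpow_mul (by positivity)]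
        congr 1
        push_cast
        ring
      calc (u ^ 2) ^ (s / 2) ≤ (2 * (‖X‖⁻¹ * (lam⁻¹ * (Z⁻¹) ^ 2))) ^ (s / 2) :=
            Real.rpow_le_rpow (by positivity) h2 (by positivity)
        _ = 2 ^ (s / 2) * ‖X‖⁻¹ ^ (s / 2) * (lam⁻¹ ^ (s / 2) * Z⁻¹ ^ s) := by
            rw [Real.mul_rpow (by norm_num) (by positivity),
              Real.mul_rpow (by positivity) (by positivity),
              Real.mul_rpow (by positivity) (by positivity), hZs]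
            ring
    refine h5.trans ?_
    refine mul_le_mul_of_nonneg_left ?_ (by positivity)
    have : 0 ≤ ‖Y‖⁻¹ ^ (s / 2) := by positivity
    linarith

/-- closed version of `lintb` -/
theorem lintc (s : ℝ) (hs1 : s < 1) (r : ℝ) (hr : 0 < r) (b : ℝ) :
    ∫⁻ v in {v : ℝ | |v - b| ≤ r}, ENNReal.ofReal (|v - b| ^ (-s)) ≤
      ENNReal.ofReal (2 * (r ^ (1 - s) / (1 - s))) := by
  refine le_trans (le_of_eq ?_) (Pool.Agent.H354.ME.lintb s hs1 r hr b)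
  have h1 : {v : ℝ | |v - b| ≤ r} = Metric.closedBall b r := by
    ext v
    simp [Real.dist_eq]
  have h2 : {v : ℝ | |v - b| < r} = Metric.ball b r := by
    ext v
    simp [Real.dist_eq]
  rw [h1, h2, Real.closedBall_eq_Icc, Real.ball_eq_Ioo]
  rw [Measure.restrict_congr_set (Ioo_ae_eq_Icc (μ := volume) (a := b - r) (b := b + r))]

theorem vol_closed (c R : ℝ) :
    volume {w : ℝ | |w - c| ≤ R} = ENNReal.ofReal (2 * R) := by
  have h1 : {v : ℝ | |v - c| ≤ R} = Metric.closedBall c R := by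
    ext v
    simp [Real.dist_eq]
  rw [h1, Real.volume_closedBall]

/-- another centre -/
theorem cen (s : ℝ) (hs0 : 0 ≤ s) (hs1 : s < 1) (R : ℝ) (hR : 0 < R) (c c' : ℝ) :
    ∫⁻ w in {w : ℝ | |w - c| ≤ R}, ENNReal.ofReal (|w - c'| ^ (-s)) ≤
      ENNReal.ofReal (2 * (R ^ (1 - s) / (1 - s)) + 2 * R ^ (1 - s)) := by
  set S : Set ℝ := {w : ℝ | |w - c| ≤ R} with hS
  set B : Set ℝ := {w : ℝ | |w - c'| ≤ R} with hB
  have hSm : MeasurableSet S := measurableSet_le (by fun_prop) (by fun_prop)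
  have hBm : MeasurableSet B := measurableSet_le (by fun_prop) (by fun_prop)
  have h1 : ∫⁻ w in S, ENNReal.ofReal (|w - c'| ^ (-s)) ≤
      (∫⁻ w in B, ENNReal.ofReal (|w - c'| ^ (-s))) +
        ∫⁻ w in S \ B, ENNReal.ofReal (|w - c'| ^ (-s)) := by
    calc ∫⁻ w in S, ENNReal.ofReal (|w - c'| ^ (-s))
        ≤ ∫⁻ w in B ∪ (S \ B), ENNReal.ofReal (|w - c'| ^ (-s)) := by
          refine lintegral_mono_set ?_
          intro v hv
          by_cases h : v ∈ B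
          · exact Or.inl h
          · exact Or.inr ⟨hv, h⟩
      _ ≤ _ := lintegral_union_le _ _ _
  have h2 : ∫⁻ w in S \ B, ENNReal.ofReal (|w - c'| ^ (-s)) ≤ ENNReal.ofReal (2 * R ^ (1 - s)) := by
    calc ∫⁻ w in S \ B, ENNReal.ofReal (|w - c'| ^ (-s))
        ≤ ∫⁻ _w in S \ B, ENNReal.ofReal (R ^ (-s)) := by
          refine setLIntegral_mono' (hSm.diff hBm) ?_
          intro v hv
          refine ENNReal.ofReal_le_ofReal ?_
          have h3 : R < |v - c'| := not_le.mp hv.2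
          exact Real.rpow_le_rpow_of_nonpos hR h3.le (by linarith)
      _ = ENNReal.ofReal (R ^ (-s)) * volume (S \ B) := by
          rw [setLIntegral_const]
      _ ≤ ENNReal.ofReal (R ^ (-s)) * ENNReal.ofReal (2 * R) := by
          gcongr
          rw [← vol_closed c R]
          exact measure_mono sdiff_subset
      _ = ENNReal.ofReal (2 * R ^ (1 - s)) := by
          rw [← ENNReal.ofReal_mul (by positivity)]
          congr 1
          have : R ^ (1 - s) = R ^ (-s) * R := by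
            rw [show (1 - s : ℝ) = -s + 1 by ring, Real.rpow_add hR, Real.rpow_one]
          rw [this]
          ring
  rw [ENNReal.ofReal_add (by have : 0 < 1 - s := by linarith
                             positivity) (by positivity)]
  exact h1.trans (add_le_add (lintc s hs1 R hR c') h2)

theorem lower (lam : ℝ) (hlam : 0 < lam) (γ : ℂ) (w : ℝ) :
    lam * |w - γ.re / lam| ≤ ‖((lam * w : ℝ) : ℂ) - γ‖ := by
  have h3 := Complex.abs_re_le_norm (((lam * w : ℝ) : ℂ) - γ)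
  have h2 : (((lam * w : ℝ) : ℂ) - γ).re = lam * (w - γ.re / lam) := by
    rw [Complex.sub_re, Complex.ofReal_re]
    field_simp
  rw [h2, abs_mul, abs_of_pos hlam] at h3
  exact h3

theorem ptw (lam a : ℝ) (hlam : 0 < lam) (ha : 0 ≤ a) (γ : ℂ) (w : ℝ) (hw : w ≠ γ.re / lam) :
    ‖((lam * w : ℝ) : ℂ) - γ‖⁻¹ ^ a ≤ lam⁻¹ ^ a * |w - γ.re / lam| ^ (-a) := by
  have h0 : 0 < |w - γ.re / lam| := abs_pos.2 (sub_ne_zero.2 hw)
  have h1 := lower lam hlam γ w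
  have h4 : ‖((lam * w : ℝ) : ℂ) - γ‖⁻¹ ≤ (lam * |w - γ.re / lam|)⁻¹ :=
    inv_anti₀ (by positivity) h1
  calc ‖((lam * w : ℝ) : ℂ) - γ‖⁻¹ ^ a ≤ (lam * |w - γ.re / lam|)⁻¹ ^ a :=
        Real.rpow_le_rpow (by positivity) h4 ha
    _ = lam⁻¹ ^ a * |w - γ.re / lam| ^ (-a) := by
        rw [mul_inv, Real.mul_rpow (by positivity) (by positivity), Real.inv_rpow (abs_nonneg _),
          Real.rpow_neg (abs_nonneg _)]

section

variable {D lam : ℝ} (hD : 0 < D) (hlam : 1 ≤ lam) {μ : Measure ℝ}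
  (hμ : ∀ A : Set ℝ, MeasurableSet A → μ A ≤ ENNReal.ofReal D * volume A)

include hμ in
theorem null_pt (c : ℝ) : ∀ᵐ v ∂μ, v ≠ c := by
  rw [ae_iff]
  have h0 : {a : ℝ | ¬ a ≠ c} = {c} := by ext; simp
  rw [h0]
  have := hμ {c} (measurableSet_singleton c)
  simpa using this

include hμ in
theorem dom (A : Set ℝ) (f : ℝ → ℝ≥0∞) :
    ∫⁻ v in A, f v ∂μ ≤ ENNReal.ofReal D * ∫⁻ v in A, f v := by
  have hle : μ ≤ ENNReal.ofReal D • volume := by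
    rw [Measure.le_iff]
    intro B hB
    simpa using hμ B hB
  calc ∫⁻ v in A, f v ∂μ ≤ ∫⁻ v in A, f v ∂(ENNReal.ofReal D • volume) :=
        lintegral_mono' (Measure.restrict_mono subset_rfl hle) le_rfl
    _ = _ := by rw [Measure.restrict_smul, lintegral_smul_measure, smul_eq_mul]

include hlam in
theorem sub_res (β : ℂ) : {w : ℝ | ‖((lam * w : ℝ) : ℂ) - β‖ ≤ 1 / lam} ⊆
    {w : ℝ | |w - β.re / lam| ≤ 1 / lam ^ 2} := by
  intro w hw
  have hl : 0 < lam := by linarith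
  have h1 := lower lam hl β w
  have h2 : ‖((lam * w : ℝ) : ℂ) - β‖ ≤ 1 / lam := hw
  show |w - β.re / lam| ≤ 1 / lam ^ 2
  rw [le_div_iff₀ (by positivity)]
  have h3 : lam * |w - β.re / lam| ≤ 1 / lam := h1.trans h2
  rw [le_div_iff₀ hl] at h3
  nlinarith

include hD hlam hμ in
/-- first inner integral -/
theorem inner1 (h : ℝ) (hh0 : 0 < h) (hh : h ≤ 1 / 2) (β : ℂ) :
    ∫⁻ w in {w : ℝ | ‖((lam * w : ℝ) : ℂ) - β‖ ≤ 1 / lam},
      ENNReal.ofReal (‖((lam * w : ℝ) : ℂ) - β‖⁻¹ ^ ((1 - h) / 2)) ∂μ ≤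
      ENNReal.ofReal (4 * D * (lam⁻¹ ^ ((1 - h) / 2) * (1 / lam ^ 2) ^ (1 - (1 - h) / 2))) := by
  have hl : 0 < lam := by linarith
  set a : ℝ := (1 - h) / 2 with ha
  have ha0 : 0 ≤ a := by rw [ha]; linarith
  have ha1 : a ≤ 1 / 2 := by rw [ha]; linarith
  set R : ℝ := 1 / lam ^ 2 with hR
  have hR0 : 0 < R := by positivity
  set S : Set ℝ := {w : ℝ | ‖((lam * w : ℝ) : ℂ) - β‖ ≤ 1 / lam} with hS
  set c : ℝ := β.re / lam with hc
  calc ∫⁻ w in S, ENNReal.ofReal (‖((lam * w : ℝ) : ℂ) - β‖⁻¹ ^ a) ∂μ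
      ≤ ∫⁻ w in S, ENNReal.ofReal (lam⁻¹ ^ a) * ENNReal.ofReal (|w - c| ^ (-a)) ∂μ := by
        refine lintegral_mono_ae (ae_restrict_of_ae ?_)
        filter_upwards [null_pt hμ c] with v hv
        rw [← ENNReal.ofReal_mul (by positivity)]
        exact ENNReal.ofReal_le_ofReal (ptw lam a hl ha0 β v hv)
    _ = ENNReal.ofReal (lam⁻¹ ^ a) * ∫⁻ w in S, ENNReal.ofReal (|w - c| ^ (-a)) ∂μ := by
        rw [lintegral_const_mul _ (by fun_prop)]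
    _ ≤ ENNReal.ofReal (lam⁻¹ ^ a) * ∫⁻ w in {w : ℝ | |w - c| ≤ R},
          ENNReal.ofReal (|w - c| ^ (-a)) ∂μ := by
        gcongr
        exact sub_res hlam β
    _ ≤ ENNReal.ofReal (lam⁻¹ ^ a) * (ENNReal.ofReal D * ∫⁻ w in {w : ℝ | |w - c| ≤ R},
          ENNReal.ofReal (|w - c| ^ (-a))) := by
        gcongr
        exact dom hμ _ _
    _ ≤ ENNReal.ofReal (lam⁻¹ ^ a) * (ENNReal.ofReal D *
          ENNReal.ofReal (2 * (R ^ (1 - a) / (1 - a)))) := by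
        gcongr
        exact lintc a (by linarith) R hR0 c
    _ ≤ ENNReal.ofReal (4 * D * (lam⁻¹ ^ a * R ^ (1 - a))) := by
        rw [← ENNReal.ofReal_mul hD.le, ← ENNReal.ofReal_mul (by positivity)]
        refine ENNReal.ofReal_le_ofReal ?_
        have h1 : R ^ (1 - a) / (1 - a) ≤ 2 * R ^ (1 - a) := by
          have h2 : 0 < R ^ (1 - a) := by positivity
          rw [div_le_iff₀ (by linarith)]
          nlinarith
        calc lam⁻¹ ^ a * (D * (2 * (R ^ (1 - a) / (1 - a))))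
            ≤ lam⁻¹ ^ a * (D * (2 * (2 * R ^ (1 - a)))) := by gcongr
          _ = 4 * D * (lam⁻¹ ^ a * R ^ (1 - a)) := by ring

include hD hlam hμ in
/-- second inner integral -/
theorem inner2 (h : ℝ) (hh0 : 0 < h) (hh : h ≤ 1 / 2) (β γ : ℂ) :
    ∫⁻ w in {w : ℝ | ‖((lam * w : ℝ) : ℂ) - β‖ ≤ 1 / lam},
      ENNReal.ofReal (‖((lam * w : ℝ) : ℂ) - γ‖⁻¹ ^ (1 - h)) ∂μ ≤
      ENNReal.ofReal ((2 * D / h + 2 * D) * (lam⁻¹ ^ (1 - h) * (1 / lam ^ 2) ^ h)) := by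
  have hl : 0 < lam := by linarith
  set s : ℝ := 1 - h with hs
  have hs0 : 0 ≤ s := by rw [hs]; linarith
  have hs1 : s < 1 := by rw [hs]; linarith
  set R : ℝ := 1 / lam ^ 2 with hR
  have hR0 : 0 < R := by positivity
  set S : Set ℝ := {w : ℝ | ‖((lam * w : ℝ) : ℂ) - β‖ ≤ 1 / lam} with hS
  set c : ℝ := β.re / lam with hc
  set c' : ℝ := γ.re / lam with hc'
  calc ∫⁻ w in S, ENNReal.ofReal (‖((lam * w : ℝ) : ℂ) - γ‖⁻¹ ^ s) ∂μ
      ≤ ∫⁻ w in S, ENNReal.ofReal (lam⁻¹ ^ s) * ENNReal.ofReal (|w - c'| ^ (-s)) ∂μ := by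
        refine lintegral_mono_ae (ae_restrict_of_ae ?_)
        filter_upwards [null_pt hμ c'] with v hv
        rw [← ENNReal.ofReal_mul (by positivity)]
        exact ENNReal.ofReal_le_ofReal (ptw lam s hl hs0 γ v hv)
    _ = ENNReal.ofReal (lam⁻¹ ^ s) * ∫⁻ w in S, ENNReal.ofReal (|w - c'| ^ (-s)) ∂μ := by
        rw [lintegral_const_mul _ (by fun_prop)]
    _ ≤ ENNReal.ofReal (lam⁻¹ ^ s) * ∫⁻ w in {w : ℝ | |w - c| ≤ R},
          ENNReal.ofReal (|w - c'| ^ (-s)) ∂μ := by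
        gcongr
        exact sub_res hlam β
    _ ≤ ENNReal.ofReal (lam⁻¹ ^ s) * (ENNReal.ofReal D * ∫⁻ w in {w : ℝ | |w - c| ≤ R},
          ENNReal.ofReal (|w - c'| ^ (-s))) := by
        gcongr
        exact dom hμ _ _
    _ ≤ ENNReal.ofReal (lam⁻¹ ^ s) * (ENNReal.ofReal D *
          ENNReal.ofReal (2 * (R ^ (1 - s) / (1 - s)) + 2 * R ^ (1 - s))) := by
        gcongr
        exact cen s hs0 hs1 R hR0 c c'
    _ ≤ ENNReal.ofReal ((2 * D / h + 2 * D) * (lam⁻¹ ^ s * R ^ h)) := by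
        rw [← ENNReal.ofReal_mul hD.le, ← ENNReal.ofReal_mul (by positivity)]
        refine ENNReal.ofReal_le_ofReal (le_of_eq ?_)
        have h1 : 1 - s = h := by rw [hs]; ring
        rw [h1]
        field_simp

/-- the constants -/
theorem const_le (D lam h : ℝ) (hD : 0 < D) (hlam : 1 ≤ lam) (hh0 : 0 < h) (hh : h ≤ 1 / 2) :
    (2 : ℝ) ^ ((1 - h) / 2) * ((4 * D * (lam⁻¹ ^ ((1 - h) / 2) *
      (1 / lam ^ 2) ^ (1 - (1 - h) / 2)) + lam⁻¹ ^ ((1 - h) / 2) *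
      ((2 * D / h + 2 * D) * (lam⁻¹ ^ (1 - h) * (1 / lam ^ 2) ^ h))) *
      ((4 * D + 1) * lam ^ (-((1 - h) / 2)))) ≤
      2 * (4 * D + 1) * (4 * D + 2 * D / h) / lam ^ 2 := by
  have hl : 0 < lam := by linarith
  have e1 : ∀ a : ℝ, lam⁻¹ ^ a = lam ^ (-a) := by
    intro a
    rw [Real.inv_rpow hl.le, Real.rpow_neg hl.le]
  have e2 : ∀ a : ℝ, (1 / lam ^ 2) ^ a = lam ^ (-(2 * a)) := by
    intro a
    rw [one_div, Real.inv_rpow (by positivity), ← Real.rpow_natCast lam 2,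
      ← Real.rpow_mul hl.le, Real.rpow_neg hl.le]
    push_cast
    rfl
  have e3 : lam ^ (-((1 - h) / 2)) * lam ^ (-(2 * (1 - (1 - h) / 2))) * lam ^ (-((1 - h) / 2)) =
      1 / lam ^ 2 := by
    rw [← Real.rpow_add hl, ← Real.rpow_add hl]
    rw [show -((1 - h) / 2) + -(2 * (1 - (1 - h) / 2)) + -((1 - h) / 2) = (-2 : ℝ) by ring]
    rw [Real.rpow_neg hl.le, one_div]
    norm_num
  have e4 : lam ^ (-((1 - h) / 2)) * (lam ^ (-(1 - h)) * lam ^ (-(2 * h))) *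
      lam ^ (-((1 - h) / 2)) = 1 / lam ^ 2 := by
    rw [← Real.rpow_add hl, ← Real.rpow_add hl, ← Real.rpow_add hl]
    rw [show -((1 - h) / 2) + (-(1 - h) + -(2 * h)) + -((1 - h) / 2) = (-2 : ℝ) by ring]
    rw [Real.rpow_neg hl.le, one_div]
    norm_num
  rw [e1, e2, e1, e2]
  have e5 : (2 : ℝ) ^ ((1 - h) / 2) * ((4 * D * (lam ^ (-((1 - h) / 2)) *
      lam ^ (-(2 * (1 - (1 - h) / 2)))) + lam ^ (-((1 - h) / 2)) *
      ((2 * D / h + 2 * D) * (lam ^ (-(1 - h)) * lam ^ (-(2 * h))))) *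
      ((4 * D + 1) * lam ^ (-((1 - h) / 2)))) =
      (2 : ℝ) ^ ((1 - h) / 2) * (4 * D + 1) * (4 * D * (lam ^ (-((1 - h) / 2)) *
        lam ^ (-(2 * (1 - (1 - h) / 2))) * lam ^ (-((1 - h) / 2))) + (2 * D / h + 2 * D) *
        (lam ^ (-((1 - h) / 2)) * (lam ^ (-(1 - h)) * lam ^ (-(2 * h))) *
      lam ^ (-((1 - h) / 2)))) := by
    ring
  rw [e5, e3, e4]
  have h1 : (2 : ℝ) ^ ((1 - h) / 2) ≤ 8 / 5 := by
    calc (2 : ℝ) ^ ((1 - h) / 2) ≤ 2 ^ (1 / 2 : ℝ) :=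
          Real.rpow_le_rpow_of_exponent_le (by norm_num) (by linarith)
      _ = Real.sqrt 2 := by rw [Real.sqrt_eq_rpow]
      _ ≤ 8 / 5 := by
          rw [Real.sqrt_le_left (by norm_num)]
          norm_num
  have h2 : 4 * D ≤ 2 * D / h := by
    rw [le_div_iff₀ hh0]
    nlinarith
  have h3 : 4 * D + (2 * D / h + 2 * D) ≤ 5 / 4 * (4 * D + 2 * D / h) := by linarith
  have h4 : 0 < 2 * D / h := by positivity
  calc (2 : ℝ) ^ ((1 - h) / 2) * (4 * D + 1) *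
        (4 * D * (1 / lam ^ 2) + (2 * D / h + 2 * D) * (1 / lam ^ 2))
      = (2 : ℝ) ^ ((1 - h) / 2) * (4 * D + 1) * (4 * D + (2 * D / h + 2 * D)) / lam ^ 2 := by
        ring
    _ ≤ 8 / 5 * (4 * D + 1) * (5 / 4 * (4 * D + 2 * D / h)) / lam ^ 2 := by
        gcongr
    _ = 2 * (4 * D + 1) * (4 * D + 2 * D / h) / lam ^ 2 := by ring

include hD hlam hμ in
theorem two_core [IsProbabilityMeasure μ] (h : ℝ) (hh0 : 0 < h) (hh : h ≤ 1 / 2)
    (h4 : ∀ β : ℂ, ∫⁻ v : ℝ, ENNReal.ofReal (‖((lam * v : ℝ) : ℂ) - β‖⁻¹ ^ ((1 - h) / 2)) ∂μ ≤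
        ENNReal.ofReal ((4 * D + 1) * lam ^ (-((1 - h) / 2)))) (α β b : ℂ) :
    ∫⁻ w in {w : ℝ | ‖((lam * w : ℝ) : ℂ) - β‖ ≤ 1 / lam}, ∫⁻ v : ℝ, ENNReal.ofReal
        ((‖b‖ / ‖(((lam * v : ℝ) : ℂ) - α) * (((lam * w : ℝ) : ℂ) - β) - b ^ 2‖) ^ (1 - h)) ∂μ ∂μ ≤
        ENNReal.ofReal (2 * (4 * D + 1) * (4 * D + 2 * D / h) / lam ^ 2) := by
  have hl : 0 < lam := by linarith
  set s : ℝ := 1 - h with hs
  have hs0 : 0 < s := by rw [hs]; linarith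
  set S : Set ℝ := {w : ℝ | ‖((lam * w : ℝ) : ℂ) - β‖ ≤ 1 / lam} with hS
  have hSm : MeasurableSet S := measurableSet_le (by fun_prop) (by fun_prop)
  set X : ℝ → ℂ := fun v => ((lam * v : ℝ) : ℂ) - α with hX
  set Y : ℝ → ℂ := fun w => ((lam * w : ℝ) : ℂ) - β with hY
  have hXm : Measurable X := by fun_prop
  have hYm : Measurable Y := by fun_prop
  set G : ℝ → ℝ → ℝ≥0∞ := fun w v => ENNReal.ofReal (2 ^ (s / 2)) *
    ENNReal.ofReal (‖X v‖⁻¹ ^ (s / 2)) * (ENNReal.ofReal (‖Y w‖⁻¹ ^ (s / 2)) +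
      ENNReal.ofReal (lam⁻¹ ^ (s / 2)) * ENNReal.ofReal (‖Y w - b ^ 2 / X v‖⁻¹ ^ s)) with hG
  have hne : ∀ (γ : ℂ) (v : ℝ), v ≠ γ.re / lam → ((lam * v : ℝ) : ℂ) - γ ≠ 0 := by
    intro γ v hv hcon
    apply hv
    have := congrArg Complex.re hcon
    rw [Complex.sub_re, Complex.ofReal_re, Complex.zero_re] at this
    field_simp
    linarith
  have step1 : ∫⁻ w in S, ∫⁻ v : ℝ, ENNReal.ofReal
        ((‖b‖ / ‖X v * Y w - b ^ 2‖) ^ s) ∂μ ∂μ ≤ ∫⁻ w in S, ∫⁻ v : ℝ, G w v ∂μ ∂μ := by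
    refine lintegral_mono_ae ?_
    filter_upwards [ae_restrict_mem hSm, ae_restrict_of_ae (null_pt hμ (β.re / lam))]
      with w hwS hwne
    refine lintegral_mono_ae ?_
    filter_upwards [null_pt hμ (α.re / lam)] with v hv
    have h1 := pt (X v) (Y w) b lam s (hne α v hv) (hne β w hwne) hl hwS hs0
    rw [hG]
    simp only
    rw [← ENNReal.ofReal_mul (by positivity), ← ENNReal.ofReal_mul (by positivity),
      ← ENNReal.ofReal_add (by positivity) (by positivity), ← ENNReal.ofReal_mul (by positivity)]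
    exact ENNReal.ofReal_le_ofReal h1
  have hGm : Measurable (Function.uncurry G) := by
    rw [hG]
    unfold Function.uncurry
    fun_prop
  have step2 : ∫⁻ w in S, ∫⁻ v : ℝ, G w v ∂μ ∂μ = ∫⁻ v : ℝ, ∫⁻ w in S, G w v ∂μ ∂μ :=
    lintegral_lintegral_swap hGm.aemeasurable
  set K1 : ℝ := 4 * D * (lam⁻¹ ^ (s / 2) * (1 / lam ^ 2) ^ (1 - s / 2)) with hK1
  set K2 : ℝ := (2 * D / h + 2 * D) * (lam⁻¹ ^ s * (1 / lam ^ 2) ^ h) with hK2
  have hK10 : 0 ≤ K1 := by positivity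
  have hK20 : 0 ≤ K2 := by positivity
  have step3 : ∀ v : ℝ, ∫⁻ w in S, G w v ∂μ ≤ ENNReal.ofReal (2 ^ (s / 2)) *
      ENNReal.ofReal (‖X v‖⁻¹ ^ (s / 2)) * ENNReal.ofReal (K1 + lam⁻¹ ^ (s / 2) * K2) := by
    intro v
    rw [hG]
    simp only
    rw [lintegral_const_mul _ (by fun_prop)]
    refine mul_le_mul' le_rfl ?_
    rw [lintegral_add_left (by fun_prop), lintegral_const_mul _ (by fun_prop),
      ENNReal.ofReal_add hK10 (by positivity),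
      ENNReal.ofReal_mul (p := lam⁻¹ ^ (s / 2)) (q := K2) (by positivity)]
    refine add_le_add ?_ (mul_le_mul' le_rfl ?_)
    · exact inner1 hD hlam hμ h hh0 hh β
    · have h5 := inner2 hD hlam hμ h hh0 hh β (β + b ^ 2 / X v)
      have e1 : ∀ w : ℝ, Y w - b ^ 2 / X v = ((lam * w : ℝ) : ℂ) - (β + b ^ 2 / X v) := by
        intro w
        rw [hY]
        ring
      simp only [e1]
      exact h5
  calc ∫⁻ w in S, ∫⁻ v : ℝ, ENNReal.ofReal ((‖b‖ / ‖X v * Y w - b ^ 2‖) ^ s) ∂μ ∂μ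
      ≤ ∫⁻ v : ℝ, ∫⁻ w in S, G w v ∂μ ∂μ := by rw [← step2]; exact step1
    _ ≤ ∫⁻ v : ℝ, ENNReal.ofReal (2 ^ (s / 2)) *
      ENNReal.ofReal (‖X v‖⁻¹ ^ (s / 2)) * ENNReal.ofReal (K1 + lam⁻¹ ^ (s / 2) * K2) ∂μ :=
        lintegral_mono step3
    _ = ENNReal.ofReal (2 ^ (s / 2)) * (∫⁻ v : ℝ, ENNReal.ofReal (‖X v‖⁻¹ ^ (s / 2)) ∂μ) *
        ENNReal.ofReal (K1 + lam⁻¹ ^ (s / 2) * K2) := by
        rw [lintegral_mul_const _ (by fun_prop), lintegral_const_mul _ (by fun_prop)]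
    _ ≤ ENNReal.ofReal (2 ^ (s / 2)) * ENNReal.ofReal ((4 * D + 1) * lam ^ (-(s / 2))) *
        ENNReal.ofReal (K1 + lam⁻¹ ^ (s / 2) * K2) := by
        gcongr
        exact h4 α
    _ ≤ ENNReal.ofReal (2 * (4 * D + 1) * (4 * D + 2 * D / h) / lam ^ 2) := by
        rw [← ENNReal.ofReal_mul (by positivity), ← ENNReal.ofReal_mul (by positivity)]
        refine ENNReal.ofReal_le_ofReal ?_
        have h6 := const_le D lam h hD hlam hh0 hh
        rw [← hs] at h6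
        calc 2 ^ (s / 2) * ((4 * D + 1) * lam ^ (-(s / 2))) * (K1 + lam⁻¹ ^ (s / 2) * K2)
            = 2 ^ (s / 2) * ((K1 + lam⁻¹ ^ (s / 2) * K2) * ((4 * D + 1) * lam ^ (-(s / 2)))) := by
              ring
          _ ≤ _ := h6

end

end Pool.Agent.H339.SH
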