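import Pool.Agent.H121.SH.Iface
import Pool.Agent.H339.SH.TwoCore

/-! Project SH of helper121, S_two (helper339). -/

set_option autoImplicit false

open scoped ENNReal
open MeasureTheory Set

namespace Pool.Agent.H339.SH

theorem two (h1 : Pool.Agent.H121.SH.S_one) : Pool.Agent.H121.SH.S_two := by
  intro D lam h hD hlam hh0 hh μ _ hμ α β b
  have h4 : ∀ β : ℂ, ∫⁻ v : ℝ, ENNReal.ofReal (‖((lam * v : ℝ) : ℂ) - β‖⁻¹ ^ ((1 - h) / 2)) ∂μ ≤
      ENNReal.ofReal ((4 * D + 1) * lam ^ (-((1 - h) / 2))) :=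
    fun β => (h1 D lam h hD hlam hh0 hh μ hμ β).2.2.2
  exact two_core hD hlam hμ h hh0 hh h4 α β b

end Pool.Agent.H339.SH
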